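import Pool.Agent.Q284.PS.Stm3

/-! Job PS-LSER of helper284: the local factor as a series. -/

set_option autoImplicit false

open Finset Polynomial ComplexConjugate
open Pool.Agent.Q284.PS

namespace Pool.Agent.Q261.PS

lemma coeff_loc (d : ℕ) (a : ℂ) (n : ℕ) : PowerSeries.coeff n (loc d a) =
    (if n = 0 then 1 else 0) - a * (if n = 1 then 1 else 0) -
      ((-1) ^ d * conj a) * (if n = d - 1 then 1 else 0) + (-1) ^ d * (if n = d then 1 else 0) := by
  unfold loc
  rw [map_add, map_sub, map_sub, PowerSeries.coeff_one, PowerSeries.coeff_C_mul,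
    PowerSeries.coeff_X, PowerSeries.coeff_C_mul, PowerSeries.coeff_X_pow,
    PowerSeries.coeff_C_mul, PowerSeries.coeff_X_pow]

lemma hs_one (m : ℕ) (c : ℂ) (x : ℂ) :
    HasSum (fun n : ℕ => c * (if n = m then 1 else 0) * x ^ n) (c * x ^ m) := by
  have h := hasSum_ite_eq m (c * x ^ m)
  refine h.congr_fun ?_ |> fun h => h
  intro n
  by_cases hn : n = m
  · rw [if_pos hn, if_pos hn, hn, mul_one]
  · rw [if_neg hn, if_neg hn, mul_zero, zero_mul]

theorem t_LSER : S_LOC1 → S_LSER := by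
  intro hL d a x hd ha hx
  obtain ⟨-, -, -, hb⟩ := hL d a hd ha
  -- the evaluation of the polynomial
  have hP : HasSum (fun n : ℕ => PowerSeries.coeff n (loc d a) * x ^ n)
      (1 - a * x - (-1) ^ d * conj a * x ^ (d - 1) + (-1) ^ d * x ^ d) := by
    have h0 := hs_one 0 1 x
    have h1 := hs_one 1 a x
    have h2 := hs_one (d - 1) ((-1) ^ d * conj a) x
    have h3 := hs_one d ((-1) ^ d) x
    have h4 := ((h0.sub h1).sub h2).add h3
    rw [pow_zero, mul_one, pow_one] at h4
    refine h4.congr_fun ?_ |> fun h => h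
    intro n
    rw [coeff_loc]
    ring
  have hPn : Summable (fun n : ℕ => ‖PowerSeries.coeff n (loc d a) * x ^ n‖) := hP.summable.norm
  -- bound
  have hroot : (3 : ℝ) ^ ((1 : ℝ) / d) ≤ 3 / 2 := by
    have hd' : (4 : ℝ) ≤ d := by exact_mod_cast hd
    have h1 : (3 : ℝ) ^ ((1 : ℝ) / d) ≤ (3 : ℝ) ^ ((1 : ℝ) / 4) :=
      Real.rpow_le_rpow_of_exponent_le (by norm_num)
        (one_div_le_one_div_of_le (by norm_num) hd')
    have h2 : (3 : ℝ) ^ ((1 : ℝ) / 4) ≤ ((3 / 2 : ℝ) ^ (4 : ℕ)) ^ ((1 : ℝ) / 4) :=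
      Real.rpow_le_rpow (by norm_num) (by norm_num) (by norm_num)
    have h3 : ((3 / 2 : ℝ) ^ (4 : ℕ)) ^ ((1 : ℝ) / 4) = 3 / 2 := by
      rw [← Real.rpow_natCast, ← Real.rpow_mul (by norm_num)]
      norm_num
    linarith
  have hcn : Summable (fun k : ℕ => ‖hh d a k * x ^ k‖) := by
    refine Summable.of_nonneg_of_le (fun k => norm_nonneg _) (fun k => ?_)
      (summable_geometric_of_lt_one (r := 3 / 4) (by norm_num) (by norm_num))
    rw [norm_mul, norm_pow]
    have h1 : (3 : ℝ) ^ ((k : ℝ) / d) ≤ (3 / 2) ^ k := by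
      have h2 : (k : ℝ) / d = (1 / d) * (k : ℕ) := by ring
      rw [h2, Real.rpow_mul (by norm_num), Real.rpow_natCast]
      exact pow_le_pow_left₀ (Real.rpow_nonneg (by norm_num) _) hroot k
    calc ‖hh d a k‖ * ‖x‖ ^ k ≤ (3 / 2) ^ k * (1 / 2) ^ k :=
          mul_le_mul ((hb k).trans h1) (pow_le_pow_left₀ (norm_nonneg _) hx k)
            (pow_nonneg (norm_nonneg _) k) (by positivity)
      _ = (3 / 4) ^ k := by rw [← mul_pow]; norm_num
  have hc : Summable (fun k : ℕ => hh d a k * x ^ k) := hcn.of_norm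
  -- the product
  have hcon : PowerSeries.constantCoeff (loc d a) ≠ 0 := by
    rw [← PowerSeries.coeff_zero_eq_constantCoeff_apply, coeff_loc]
    rw [if_pos rfl, if_neg (by norm_num), if_neg (by omega), if_neg (by omega)]
    norm_num
  have hinv := PowerSeries.mul_inv_cancel (loc d a) hcon
  have hprod := tsum_mul_tsum_eq_tsum_sum_antidiagonal_of_summable_norm hPn hcn
  have hone : ∀ n : ℕ, ∑ kl ∈ HasAntidiagonal.antidiagonal n,
      PowerSeries.coeff kl.1 (loc d a) * x ^ kl.1 * (hh d a kl.2 * x ^ kl.2) =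
      if n = 0 then 1 else 0 := by
    intro n
    have h1 := congrArg (PowerSeries.coeff n) hinv
    rw [PowerSeries.coeff_mul, PowerSeries.coeff_one] at h1
    have h2 : ∑ kl ∈ HasAntidiagonal.antidiagonal n,
        PowerSeries.coeff kl.1 (loc d a) * x ^ kl.1 * (hh d a kl.2 * x ^ kl.2) =
        (∑ kl ∈ HasAntidiagonal.antidiagonal n, PowerSeries.coeff kl.1 (loc d a) *
          PowerSeries.coeff kl.2 (loc d a)⁻¹) * x ^ n := by
      rw [Finset.sum_mul]
      refine Finset.sum_congr rfl fun kl hkl => ?_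
      have h3 : kl.1 + kl.2 = n := mem_antidiagonal.1 hkl
      rw [← h3, pow_add]
      unfold hh
      ring
    rw [h2, h1]
    by_cases hn : n = 0
    · rw [if_pos hn, hn, pow_zero, mul_one]
    · rw [if_neg hn, zero_mul]
  rw [tsum_congr hone, tsum_ite_eq, hP.tsum_eq] at hprod
  have hS := hc.hasSum
  rwa [eq_inv_of_mul_eq_one_right hprod] at hS

end Pool.Agent.Q261.PS
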